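import Pool.Agent.Lib_helper66.TOR.A
import Pool.Agent.Lib_helper66.CYL.Notions

/-! # Siegel's argument for curves with algebraic image: homogeneous forms along a curve -/

set_option autoImplicit false

open Filter Topology Metric Set

namespace Pool.Agent.TOR

open Pool.Agent.IS

variable {n : ℕ}

/-- the monomial `v_p ^ a_1 * v_q ^ a_2 * v_r ^ (2 D - a_1 - a_2)` -/
noncomputable def mono (p q r : Fin (n + 1)) (D : ℕ) (a : Fin (D + 1) × Fin (D + 1))
    (v : Fin (n + 1) → ℂ) : ℂ :=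
  v p ^ (a.1 : ℕ) * v q ^ (a.2 : ℕ) * v r ^ (2 * D - a.1 - a.2 : ℕ)

/-- the form with coefficients `c` of degree `2 D` in the coordinates `p, q, r` -/
noncomputable def form (p q r : Fin (n + 1)) (D : ℕ) (c : Fin (D + 1) × Fin (D + 1) → ℂ)
    (v : Fin (n + 1) → ℂ) : ℂ :=
  ∑ a : Fin (D + 1) × Fin (D + 1), c a * mono p q r D a v

/-- the exponents -/
noncomputable def ex (D : ℕ) (a : Fin (D + 1) × Fin (D + 1)) : Fin 3 →₀ ℕ :=
  Finsupp.equivFunOnFinite.symm ![(a.1 : ℕ), (a.2 : ℕ), 2 * D - a.1 - a.2]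

/-- the polynomial with coefficients `c` of degree `2 D` in three variables -/
noncomputable def poly (D : ℕ) (c : Fin (D + 1) × Fin (D + 1) → ℂ) : MvPolynomial (Fin 3) ℂ :=
  ∑ a : Fin (D + 1) × Fin (D + 1), MvPolynomial.monomial (ex D a) (c a)

theorem eval_poly (p q r : Fin (n + 1)) (D : ℕ) (c : Fin (D + 1) × Fin (D + 1) → ℂ)
    (v : Fin (n + 1) → ℂ) :
    MvPolynomial.eval ![v p, v q, v r] (poly D c) = form p q r D c v := by
  rw [poly, form, map_sum]
  refine Finset.sum_congr rfl fun a _ => ?_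
  rw [MvPolynomial.eval_monomial, Finsupp.prod_fintype _ _ (fun i => by simp), Fin.prod_univ_three]
  simp [ex, mono]

theorem poly_hom (D : ℕ) (c : Fin (D + 1) × Fin (D + 1) → ℂ) :
    (poly D c).IsHomogeneous (2 * D) := by
  unfold poly
  refine MvPolynomial.IsHomogeneous.sum _ _ _ fun a _ => ?_
  refine MvPolynomial.isHomogeneous_monomial _ ?_
  rw [Finsupp.degree_eq_sum, Fin.sum_univ_three]
  have := a.1.2
  have := a.2.2
  simp only [ex, Finsupp.equivFunOnFinite_symm_apply_apply, Matrix.cons_val_zero,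
    Matrix.cons_val_one, Matrix.cons_val]
  omega

theorem ex_inj (D : ℕ) : Function.Injective (ex D) := by
  intro a b h
  have h1 := congrArg (fun f => f 0) h
  have h2 := congrArg (fun f => f 1) h
  simp only [ex, Finsupp.equivFunOnFinite_symm_apply_apply, Matrix.cons_val_zero,
    Matrix.cons_val_one] at h1 h2
  exact Prod.ext (Fin.ext h1) (Fin.ext h2)

theorem poly_ne (D : ℕ) {c : Fin (D + 1) × Fin (D + 1) → ℂ} (hc : c ≠ 0) : poly D c ≠ 0 := by
  intro h
  apply hc
  funext a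
  have h1 := congrArg (MvPolynomial.coeff (ex D a)) h
  rw [MvPolynomial.coeff_zero] at h1
  rw [Pi.zero_apply, ← h1, poly, MvPolynomial.coeff_sum, Finset.sum_eq_single a]
  · simp
  · intro b _ hb
    rw [MvPolynomial.coeff_monomial, if_neg]
    exact fun h => hb (ex_inj D h)
  · simp

theorem form_smul (p q r : Fin (n + 1)) (D : ℕ) (c : Fin (D + 1) × Fin (D + 1) → ℂ) (t : ℂ)
    (v : Fin (n + 1) → ℂ) : form p q r D c (t • v) = t ^ (2 * D) * form p q r D c v := by
  rw [form, form, Finset.mul_sum]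
  refine Finset.sum_congr rfl fun a _ => ?_
  have h1 : t ^ (2 * D) = t ^ (a.1 : ℕ) * t ^ (a.2 : ℕ) * t ^ (2 * D - a.1 - a.2 : ℕ) := by
    rw [← pow_add, ← pow_add]
    congr 1
    have := a.1.2
    have := a.2.2
    omega
  simp only [mono, Pi.smul_apply, smul_eq_mul, mul_pow, h1]
  ring

theorem norm_mono_le (p q r : Fin (n + 1)) (D : ℕ) (a : Fin (D + 1) × Fin (D + 1))
    (v : Fin (n + 1) → ℂ) : ‖mono p q r D a v‖ ≤ ‖v‖ ^ (2 * D) := by
  have h1 : ‖v‖ ^ (2 * D) = ‖v‖ ^ (a.1 : ℕ) * ‖v‖ ^ (a.2 : ℕ) * ‖v‖ ^ (2 * D - a.1 - a.2 : ℕ) := by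
    rw [← pow_add, ← pow_add]
    congr 1
    have := a.1.2
    have := a.2.2
    omega
  rw [h1, mono, norm_mul, norm_mul, norm_pow, norm_pow, norm_pow]
  gcongr
  · exact norm_le_pi_norm v p
  · exact norm_le_pi_norm v q
  · exact norm_le_pi_norm v r

theorem norm_form_le (p q r : Fin (n + 1)) (D : ℕ) (c : Fin (D + 1) × Fin (D + 1) → ℂ)
    (v : Fin (n + 1) → ℂ) : ‖form p q r D c v‖ ≤ (∑ a, ‖c a‖) * ‖v‖ ^ (2 * D) := by
  rw [form, Finset.sum_mul]
  refine (norm_sum_le _ _).trans (Finset.sum_le_sum fun a _ => ?_)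
  rw [norm_mul]
  gcongr
  exact norm_mono_le _ _ _ _ _ _

theorem differentiableAt_mono {p q r : Fin (n + 1)} {D : ℕ} {a : Fin (D + 1) × Fin (D + 1)}
    {F : ℂ → Fin (n + 1) → ℂ} {z : ℂ} (hF : DifferentiableAt ℂ F z) :
    DifferentiableAt ℂ (fun w => mono p q r D a (F w)) z := by
  have h := differentiableAt_pi.1 hF
  unfold mono
  exact (((h p).pow _).mul ((h q).pow _)).mul ((h r).pow _)

theorem differentiableAt_form {p q r : Fin (n + 1)} {D : ℕ} {c : Fin (D + 1) × Fin (D + 1) → ℂ}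
    {F : ℂ → Fin (n + 1) → ℂ} {z : ℂ} (hF : DifferentiableAt ℂ F z) :
    DifferentiableAt ℂ (fun w => form p q r D c (F w)) z := by
  unfold form
  refine DifferentiableAt.fun_sum fun a _ => ?_
  exact (differentiableAt_mono hF).const_mul _

/-- there is a form which vanishes along given holomorphic maps to a high order at given points -/
theorem exists_form {ι : Type} [Fintype ι] (p q r : Fin (n + 1)) (D m : ℕ) (y : ι → ℂ) {δ : ℝ}
    (hδ : 0 < δ) (F : ι → ℂ → Fin (n + 1) → ℂ)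
    (hF : ∀ j, DifferentiableOn ℂ (F j) (ball (y j) δ))
    (hlt : Fintype.card ι * m < (D + 1) ^ 2) :
    ∃ c : Fin (D + 1) × Fin (D + 1) → ℂ, c ≠ 0 ∧ ∀ j, ∀ k < m,
      iteratedDeriv k (fun z => form p q r D c (F j z)) (y j) = 0 := by
  classical
  let L : (Fin (D + 1) × Fin (D + 1) → ℂ) →ₗ[ℂ] (ι × Fin m → ℂ) :=
    LinearMap.pi fun jk => ∑ a, (iteratedDeriv jk.2 (fun z => mono p q r D a (F jk.1 z)) (y jk.1)) •
      LinearMap.proj a
  have hker : LinearMap.ker L ≠ ⊥ := by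
    refine LinearMap.ker_ne_bot_of_finrank_lt ?_
    simp only [Module.finrank_fintype_fun_eq_card, Fintype.card_prod, Fintype.card_fin]
    nlinarith
  obtain ⟨c, hc, hc0⟩ := (Submodule.ne_bot_iff _).1 hker
  refine ⟨c, hc0, fun j k hk => ?_⟩
  have h1 := congrFun (LinearMap.mem_ker.1 hc) (j, ⟨k, hk⟩)
  simp only [L, LinearMap.pi_apply, LinearMap.sum_apply, LinearMap.smul_apply,
    LinearMap.proj_apply, smul_eq_mul, Pi.zero_apply] at h1
  rw [← h1]
  have han : ∀ a, AnalyticAt ℂ (fun z => mono p q r D a (F j z)) (y j) := by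
    intro a
    refine DifferentiableOn.analyticAt (s := ball (y j) δ) ?_ (isOpen_ball.mem_nhds
      (mem_ball_self hδ))
    intro w hw
    exact (differentiableAt_mono ((hF j).differentiableAt
      (isOpen_ball.mem_nhds hw))).differentiableWithinAt
  have h2 : iteratedDeriv k (fun z => form p q r D c (F j z)) (y j) =
      ∑ a, c a * iteratedDeriv k (fun z => mono p q r D a (F j z)) (y j) := by
    have h3 := iteratedDeriv_fun_sum (n := k) (x := y j) (I := Finset.univ)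
      (f := fun a z => c a * mono p q r D a (F j z))
      (fun a _ => (analyticAt_const.mul (han a)).contDiffAt)
    unfold form
    rw [h3]
    refine Finset.sum_congr rfl fun a _ => ?_
    exact iteratedDeriv_const_mul_field (c a) _
  rw [h2]
  exact Finset.sum_congr rfl fun a _ => mul_comm _ _

/-! ### sizes of forms -/

/-- the size of the value of a form of degree `e` at a point of projective space -/
noncomputable def sz (P : (Fin (n + 1) → ℂ) → ℂ) (e : ℕ)
    (x : Projectivization ℂ (Fin (n + 1) → ℂ)) : ℝ := ‖P x.rep‖ / ‖x.rep‖ ^ e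

theorem sz_nonneg (P : (Fin (n + 1) → ℂ) → ℂ) (e : ℕ)
    (x : Projectivization ℂ (Fin (n + 1) → ℂ)) : 0 ≤ sz P e x := by
  unfold sz
  positivity

theorem sz_mk {P : (Fin (n + 1) → ℂ) → ℂ} {e : ℕ} (hP : ∀ (t : ℂ) v, P (t • v) = t ^ e * P v)
    {x : Projectivization ℂ (Fin (n + 1) → ℂ)} {v : Fin (n + 1) → ℂ} {h : v ≠ 0}
    (hx : x = Projectivization.mk ℂ v h) : sz P e x = ‖P v‖ / ‖v‖ ^ e := by
  obtain ⟨a, ha⟩ := Projectivization.exists_smul_eq_mk_rep ℂ v h
  rw [← hx] at ha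
  have h1 : (a : ℂ) • v = x.rep := ha
  have ha0 : ‖(a : ℂ)‖ ≠ 0 := norm_ne_zero_iff.2 a.ne_zero
  have hv : ‖v‖ ≠ 0 := norm_ne_zero_iff.2 h
  rw [sz, ← h1, hP, norm_mul, norm_pow, norm_smul, mul_pow]
  rw [mul_div_mul_left _ _ (pow_ne_zero _ ha0)]

/-- a bound of the sizes of forms along a curve by their sizes on a disc -/
def Comp (H : ℂ → Projectivization ℂ (Fin (n + 1) → ℂ)) : Prop :=
  ∃ R A : ℝ, 1 ≤ A ∧ ∀ (p q r : Fin (n + 1)) (D : ℕ) (c : Fin (D + 1) × Fin (D + 1) → ℂ) (S : ℝ),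
    0 ≤ S → (∀ w, ‖w‖ ≤ R → sz (form p q r D c) (2 * D) (H w) ≤ S) →
      ∀ z, sz (form p q r D c) (2 * D) (H z) ≤ A ^ (2 * D) * S

theorem rel3_of_comp {H : ℂ → Projectivization ℂ (Fin (n + 1) → ℂ)} (hU : UnifLift H)
    (hC : Comp H) : Rel3 H := by
  intro p q r
  obtain ⟨δ, C₀, hδ, hlift⟩ := hU
  obtain ⟨R, A, hA, hcomp⟩ := hC
  -- we may assume that the bound of the lifts is at least one
  set C := max C₀ 1 with hCdef
  have hC1 : 1 ≤ C := le_max_right _ _
  -- a finite net of the disc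
  obtain ⟨t, ht, htR⟩ := Metric.totallyBounded_iff.1
    (isCompact_closedBall (0 : ℂ) R).totallyBounded (δ / 4) (by linarith)
  have : Fintype t := ht.fintype
  choose F p₀ hFd hF using hlift
  -- the exponents
  obtain ⟨K, hK⟩ := pow_unbounded_of_one_lt (C * A) (one_lt_two : (1 : ℝ) < 2)
  set J := Fintype.card t with hJ
  set D : ℕ := 2 * J * K + 1 with hD
  set m : ℕ := K * (2 * D) with hm
  have hlt : Fintype.card t * m < (D + 1) ^ 2 := by
    rw [← hJ, hm]
    have h1 : J * (K * (2 * D)) = (2 * J * K) * D := by ring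
    have h2 : 2 * J * K ≤ D := by omega
    calc J * (K * (2 * D)) = (2 * J * K) * D := h1
      _ ≤ D * D := Nat.mul_le_mul_right _ h2
      _ < (D + 1) ^ 2 := by nlinarith
  obtain ⟨c, hc0, hc⟩ := exists_form p q r D m (fun j : t => (j : ℂ)) hδ (fun j => F j)
    (fun j => hFd j) hlt
  set Q := form p q r D c with hQ
  have hQh : ∀ (t : ℂ) v, Q (t • v) = t ^ (2 * D) * Q v := fun t v => form_smul p q r D c t v
  have hF1 : ∀ z₀ z, z ∈ ball z₀ δ → 1 ≤ ‖F z₀ z‖ := by
    intro z₀ z hz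
    obtain ⟨h1, -, -⟩ := hF z₀ z hz
    have := norm_le_pi_norm (F z₀ z) (p₀ z₀)
    rwa [h1, norm_one] at this
  -- the finite supremum
  set S : ℝ := sSup ((fun w => sz Q (2 * D) (H w)) '' closedBall 0 R) with hS
  have hszle : ∀ z, sz Q (2 * D) (H z) ≤ ∑ a, ‖c a‖ := by
    intro z
    have hr : (H z).rep ≠ 0 := (H z).rep_nonzero
    rw [sz, div_le_iff₀ (by positivity)]
    exact norm_form_le p q r D c _
  have hbdd : BddAbove ((fun w => sz Q (2 * D) (H w)) '' closedBall 0 R) := by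
    refine ⟨∑ a, ‖c a‖, ?_⟩
    rintro _ ⟨w, -, rfl⟩
    exact hszle w
  have hSle : ∀ w, ‖w‖ ≤ R → sz Q (2 * D) (H w) ≤ S := fun w hw =>
    le_csSup hbdd ⟨w, by simpa using hw, rfl⟩
  have hS0 : 0 ≤ S := by
    refine Real.sSup_nonneg ?_
    rintro _ ⟨w, -, rfl⟩
    exact sz_nonneg _ _ _
  have hglob := hcomp p q r D c S hS0 hSle
  -- the lemma of Schwarz
  have hsmall : ∀ w, ‖w‖ ≤ R → sz Q (2 * D) (H w) ≤ C ^ (2 * D) * (A ^ (2 * D) * S) / 2 ^ m := by
    intro w hw
    have hw' : w ∈ ⋃ y ∈ t, ball y (δ / 4) := htR (by simpa using hw)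
    simp only [mem_iUnion, exists_prop] at hw'
    obtain ⟨y, hy, hwy⟩ := hw'
    have hwδ : w ∈ ball y δ := ball_subset_ball (by linarith) hwy
    have h1 := schwarz (f := fun z => Q (F y z)) (z₀ := y) (δ := δ)
      (B := C ^ (2 * D) * (A ^ (2 * D) * S)) (m := m) hδ ?_ ?_ (fun k hk => hc ⟨y, hy⟩ k hk) hwy
    · obtain ⟨-, -, hne, hmk⟩ := hF y w hwδ
      rw [sz_mk hQh hmk]
      refine (div_le_self (norm_nonneg _) (one_le_pow₀ (hF1 y w hwδ))).trans h1
    · intro z hz
      exact (differentiableAt_form ((hFd y).differentiableAt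
        (isOpen_ball.mem_nhds hz))).differentiableWithinAt
    · intro z hz
      obtain ⟨-, hle, hne, hmk⟩ := hF y z hz
      have h2 := hglob z
      rw [sz_mk hQh hmk, div_le_iff₀ (by positivity)] at h2
      refine h2.trans ?_
      rw [mul_comm]
      gcongr
      exact hle.trans (le_max_left _ _)
  -- the supremum vanishes
  have hSz : S = 0 := by
    by_contra hne
    have hSpos : 0 < S := lt_of_le_of_ne hS0 (Ne.symm hne)
    have h1 : S ≤ C ^ (2 * D) * (A ^ (2 * D) * S) / 2 ^ m := by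
      refine Real.sSup_le ?_ (by positivity)
      rintro _ ⟨w, hw, rfl⟩
      exact hsmall w (by simpa using hw)
    rw [le_div_iff₀ (by positivity)] at h1
    have h2 : (2 : ℝ) ^ m ≤ (C * A) ^ (2 * D) := by
      have : S * 2 ^ m ≤ S * (C * A) ^ (2 * D) := by
        rw [mul_pow]
        linarith
      exact le_of_mul_le_mul_left this hSpos
    have h3 : (2 : ℝ) ^ m = (2 ^ K) ^ (2 * D) := by rw [hm, pow_mul]
    rw [h3] at h2
    have h4 : (C * A) ^ (2 * D) < ((2 : ℝ) ^ K) ^ (2 * D) :=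
      pow_lt_pow_left₀ hK (by positivity) (by omega)
    linarith
  refine ⟨2 * D, poly D c, poly_ne D hc0, poly_hom D c, fun z => ?_⟩
  rw [eval_poly]
  have h1 := hglob z
  rw [hSz, mul_zero] at h1
  have h2 := le_antisymm h1 (sz_nonneg _ _ _)
  have hr : (H z).rep ≠ 0 := (H z).rep_nonzero
  rw [sz, div_eq_zero_iff] at h2
  rcases h2 with h2 | h2
  · exact norm_eq_zero.1 h2
  · exact absurd h2 (by positivity)

end Pool.Agent.TOR
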