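import Pool.Agent.Lib_helper66.TOR.B

/-! # Siegel's argument for curves with algebraic image: the comparison

The sizes of forms along a curve with algebraic image are bounded by their sizes on a disc. -/

set_option autoImplicit false

open Filter Topology Metric Set

namespace Pool.Agent.TOR

open Pool.Agent.IS

variable {n : ℕ}

/-- `ι` has continuous local lifts -/
def CtsP {X : Type} [TopologicalSpace X] (ι : X → Projectivization ℂ (Fin (n + 1) → ℂ)) : Prop :=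
  ∀ x₀, ∃ F : X → Fin (n + 1) → ℂ, ContinuousAt F x₀ ∧
    ∀ᶠ x in 𝓝 x₀, ∃ h : F x ≠ 0, ι x = Projectivization.mk ℂ (F x) h

theorem continuous_sz {X : Type} [TopologicalSpace X]
    {ι : X → Projectivization ℂ (Fin (n + 1) → ℂ)} (hι : CtsP ι)
    (l : (Fin (n + 1) → ℂ) →L[ℂ] ℂ) : Continuous fun x => sz l 1 (ι x) := by
  rw [continuous_iff_continuousAt]
  intro x₀
  obtain ⟨F, hF, hmk⟩ := hι x₀
  have hl : ∀ (t : ℂ) v, l (t • v) = t ^ 1 * l v := fun t v => by simp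
  obtain ⟨h0, -⟩ := hmk.self_of_nhds
  have h1 : (fun x => ‖l (F x)‖ / ‖F x‖ ^ 1) =ᶠ[𝓝 x₀] fun x => sz l 1 (ι x) := by
    filter_upwards [hmk] with x hx
    obtain ⟨h, hx⟩ := hx
    exact (sz_mk hl hx).symm
  refine ContinuousAt.congr ?_ h1
  refine ContinuousAt.div (l.continuous.continuousAt.comp hF).norm (hF.norm.pow 1) ?_
  positivity

theorem comp_of_alg {X : Type} [TopologicalSpace X]
    {ι : X → Projectivization ℂ (Fin (n + 1) → ℂ)} (hι : CtsP ι) {g : ℂ → X}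
    (hg : Continuous g) (hU : UnifLift (ι ∘ g)) (hA : Cylinder.HasAlgebraicImage g) :
    Comp (ι ∘ g) := by
  obtain ⟨Z, hZ, hW⟩ := hA
  obtain ⟨δ, C₀, hδ, hlift⟩ := hU
  have : Finite Z := hZ
  -- a linear form
  obtain ⟨l₀, hl₀⟩ := Module.exists_dual_forall_apply_ne_zero (K := ℂ)
    (fun q : Z => (ι q).rep) (fun q => (ι q).rep_nonzero)
  set l : (Fin (n + 1) → ℂ) →L[ℂ] ℂ := LinearMap.toContinuousLinearMap l₀ with hldef
  have hl : ∀ (t : ℂ) v, l (t • v) = t ^ 1 * l v := fun t v => by simp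
  -- a constant
  obtain ⟨c₀, ⟨hc0, hc1⟩, hcZ⟩ : ∃ c₀ : ℝ, (0 < c₀ ∧ c₀ ≤ 1) ∧ ∀ q ∈ Z, c₀ < sz l 1 (ι q) := by
    have h1 : ∀ᶠ c : ℝ in 𝓝[>] 0, ∀ q ∈ Z, c < sz l 1 (ι q) := by
      refine (Filter.eventually_all_finite hZ).2 fun q hq => ?_
      have h2 : 0 < sz l 1 (ι q) := by
        have h3 : l (ι q).rep ≠ 0 := hl₀ ⟨q, hq⟩
        have h4 : (ι q).rep ≠ 0 := (ι q).rep_nonzero
        rw [sz]
        positivity
      exact (eventually_lt_nhds h2).filter_mono nhdsWithin_le_nhds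
    have h2 : ∀ᶠ c : ℝ in 𝓝[>] 0, c ≤ 1 :=
      (eventually_le_nhds zero_lt_one).filter_mono nhdsWithin_le_nhds
    have h3 : ∀ᶠ c : ℝ in 𝓝[>] 0, 0 < c := self_mem_nhdsWithin
    obtain ⟨c, h1, h2, h3⟩ := (h1.and (h2.and h3)).exists
    exact ⟨c, ⟨h3, h2⟩, h1⟩
  have hcont := continuous_sz hι l
  obtain ⟨R, hR⟩ := hW {x | c₀ < sz l 1 (ι x)} (isOpen_lt continuous_const hcont) hcZ
  have hρc : Continuous fun z => sz l 1 (ι (g z)) := hcont.comp hg
  set R' := max R 1 with hR'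
  have hR'0 : 0 < R' := lt_of_lt_of_le one_pos (le_max_right _ _)
  have hcov : ∀ z, ¬ c₀ < sz l 1 (ι (g z)) → ∃ w, ‖w‖ ≤ R' ∧ g w = g z := by
    intro z hz
    rcases hR (mem_range_self z) with h | ⟨w, hw, hwz⟩
    · exact absurd h hz
    · refine ⟨w, ?_, hwz⟩
      have : ‖w‖ ≤ R := by simpa using hw
      exact this.trans (le_max_left _ _)
  have hρle : ∀ x : Projectivization ℂ (Fin (n + 1) → ℂ), sz l 1 x ≤ ‖l‖ := by
    intro x
    have : x.rep ≠ 0 := x.rep_nonzero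
    rw [sz, div_le_iff₀ (by positivity), pow_one]
    exact l.le_opNorm _
  refine ⟨R', max 1 (‖l‖ / c₀), le_max_left _ _, ?_⟩
  intro p q r D c S hS0 hS z
  simp only [Function.comp_apply] at hS ⊢
  set Q := form p q r D c with hQ
  have hQh : ∀ (t : ℂ) v, Q (t • v) = t ^ (2 * D) * Q v := fun t v => form_smul p q r D c t v
  have hAge : S ≤ max 1 (‖l‖ / c₀) ^ (2 * D) * S := by
    have : 1 ≤ max 1 (‖l‖ / c₀) ^ (2 * D) := one_le_pow₀ (le_max_left _ _)
    nlinarith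
  by_cases hz1 : ‖z‖ ≤ R'
  · exact (hS z hz1).trans hAge
  by_cases hz2 : c₀ < sz l 1 (ι (g z))
  swap
  · obtain ⟨w, hw, hwz⟩ := hcov z hz2
    rw [← hwz]
    exact (hS w hw).trans hAge
  push Not at hz1
  -- the quotient
  set f : ℂ → ℂ := fun w => Q (ι (g w)).rep / (l (ι (g w)).rep) ^ (2 * D) with hf
  have hfn : ∀ w, ‖f w‖ * sz l 1 (ι (g w)) ^ (2 * D) = sz Q (2 * D) (ι (g w)) ∨
      sz l 1 (ι (g w)) = 0 := by
    intro w
    by_cases h : sz l 1 (ι (g w)) = 0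
    · exact Or.inr h
    · left
      have h1 : (ι (g w)).rep ≠ 0 := (ι (g w)).rep_nonzero
      have h2 : l (ι (g w)).rep ≠ 0 := by
        intro h3
        apply h
        rw [sz, h3, norm_zero, zero_div]
      have h3 : ‖(ι (g w)).rep‖ ≠ 0 := norm_ne_zero_iff.2 h1
      have h4 : ‖l (ι (g w)).rep‖ ≠ 0 := norm_ne_zero_iff.2 h2
      simp only [hf, sz, norm_div, norm_pow, pow_one, div_pow]
      field_simp
  have hfd : ∀ w, 0 < sz l 1 (ι (g w)) → DifferentiableAt ℂ f w := by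
    intro w hw
    obtain ⟨F, p₀, hFd, hF⟩ := hlift w
    have hne : l (F w) ≠ 0 := by
      obtain ⟨-, -, h, hmk⟩ := hF w (mem_ball_self hδ)
      intro h0
      have : sz l 1 (ι (g w)) = 0 := by
        rw [sz_mk hl (show ι (g w) = _ from hmk), h0, norm_zero, zero_div]
      linarith
    have hF1 : DifferentiableAt ℂ F w :=
      (hFd).differentiableAt (isOpen_ball.mem_nhds (mem_ball_self hδ))
    have h1 : f =ᶠ[𝓝 w] fun w' => Q (F w') / (l (F w')) ^ (2 * D) := by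
      filter_upwards [isOpen_ball.mem_nhds (mem_ball_self hδ)] with w' hw'
      obtain ⟨-, -, h, hmk⟩ := hF w' hw'
      obtain ⟨a, ha⟩ := Projectivization.exists_smul_eq_mk_rep ℂ (F w') h
      rw [← hmk] at ha
      have h1 : (a : ℂ) • F w' = (ι (g w')).rep := ha
      have ha0 : (a : ℂ) ^ (2 * D) ≠ 0 := pow_ne_zero _ a.ne_zero
      simp only [hf]
      rw [← h1, hQh, hl, pow_one, mul_pow, mul_div_mul_left _ _ ha0]
    refine DifferentiableAt.congr_of_eventuallyEq ?_ h1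
    refine (differentiableAt_form hF1).div ((l.differentiableAt.comp w hF1).pow _) ?_
    exact pow_ne_zero _ hne
  -- the open set
  set U : Set ℂ := {w | R' < ‖w‖} ∩ {w | c₀ < sz l 1 (ι (g w))} with hUdef
  have hUo : IsOpen U := (isOpen_lt continuous_const continuous_norm).inter
    (isOpen_lt continuous_const hρc)
  have hcl : ∀ w ∈ closure U, R' ≤ ‖w‖ ∧ c₀ ≤ sz l 1 (ι (g w)) := by
    intro w hw
    have h1 : closure U ⊆ {w | R' ≤ ‖w‖} ∩ {w | c₀ ≤ sz l 1 (ι (g w))} := by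
      refine closure_minimal ?_ ((isClosed_le continuous_const continuous_norm).inter
        (isClosed_le continuous_const hρc))
      rintro w ⟨h2, h3⟩
      simp only [mem_ofPred_eq] at h2 h3
      exact ⟨h2.le, h3.le⟩
    exact h1 hw
  have hfle : ∀ w ∈ closure U, ∀ T, sz Q (2 * D) (ι (g w)) ≤ T → ‖f w‖ ≤ T / c₀ ^ (2 * D) := by
    intro w hw T hT
    obtain ⟨-, h2⟩ := hcl w hw
    have h3 : 0 < sz l 1 (ι (g w)) := hc0.trans_le h2
    rcases hfn w with h | h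
    · rw [le_div_iff₀ (by positivity)]
      calc ‖f w‖ * c₀ ^ (2 * D) ≤ ‖f w‖ * sz l 1 (ι (g w)) ^ (2 * D) := by gcongr
        _ ≤ T := h ▸ hT
    · exact absurd h h3.ne'
  have hmain : ‖f z‖ ≤ S / c₀ ^ (2 * D) := by
    refine maxp (U := U) hR'0 (fun w hw => hw.1) (f := f) ?_
      (B := (∑ a, ‖c a‖) / c₀ ^ (2 * D)) ?_ (by positivity) ?_ ⟨hz1, hz2⟩
    · refine ⟨fun w hw => (hfd w (hc0.trans hw.2)).differentiableWithinAt, fun w hw => ?_⟩
      exact (hfd w (hc0.trans_le (hcl w hw).2)).continuousAt.continuousWithinAt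
    · intro w hw
      refine hfle w (subset_closure hw) _ ?_
      have hr : (ι (g w)).rep ≠ 0 := (ι (g w)).rep_nonzero
      rw [sz, div_le_iff₀ (by positivity)]
      exact norm_form_le p q r D c _
    · intro w hw
      rw [hUo.frontier_eq] at hw
      obtain ⟨hw1, hw2⟩ := hw
      refine hfle w hw1 _ ?_
      by_cases h : ‖w‖ ≤ R'
      · exact hS w h
      · have h3 : ¬ c₀ < sz l 1 (ι (g w)) := fun h4 => hw2 ⟨not_le.1 h, h4⟩
        obtain ⟨w', hw', he⟩ := hcov w h3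
        rw [← he]
        exact hS w' hw'
  rcases hfn z with h | h
  · rw [← h]
    have h5 := hρle (ι (g z))
    have h6 : 0 ≤ sz l 1 (ι (g z)) := sz_nonneg _ _ _
    calc ‖f z‖ * sz l 1 (ι (g z)) ^ (2 * D) ≤ S / c₀ ^ (2 * D) * ‖l‖ ^ (2 * D) := by gcongr
      _ = (‖l‖ / c₀) ^ (2 * D) * S := by rw [div_pow]; ring
      _ ≤ max 1 (‖l‖ / c₀) ^ (2 * D) * S := by
        gcongr
        exact le_max_right _ _
  · rw [h] at hz2
    linarith

/-- Siegel's theorem for Brody curves with algebraic image -/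
theorem rel3_of_alg {X : Type} [TopologicalSpace X]
    {ι : X → Projectivization ℂ (Fin (n + 1) → ℂ)} (hι : CtsP ι) {g : ℂ → X}
    (hg : Continuous g) (hU : UnifLift (ι ∘ g)) (hA : Cylinder.HasAlgebraicImage g) :
    Rel3 (ι ∘ g) :=
  rel3_of_comp hU (comp_of_alg hι hg hU hA)

end Pool.Agent.TOR
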