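import Pool.Agent.Lib_helper80.IS.Iface

/-! # Siegel's argument for curves with algebraic image: analysis

A maximum principle for bounded functions on unbounded open sets and a lemma of Schwarz with
multiplicities. -/

set_option autoImplicit false

open Filter Topology Metric Set

namespace Pool.Agent.TOR

/-- maximum principle for bounded holomorphic functions on an open set in the exterior of a disc -/
theorem maxp {U : Set ℂ} {R : ℝ} (hR : 0 < R) (hUR : ∀ z ∈ U, R < ‖z‖) {f : ℂ → ℂ}
    (hf : DiffContOnCl ℂ f U) {B S : ℝ} (hB : ∀ z ∈ U, ‖f z‖ ≤ B) (hS0 : 0 ≤ S)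
    (hS : ∀ z ∈ frontier U, ‖f z‖ ≤ S) {z : ℂ} (hz : z ∈ U) : ‖f z‖ ≤ S := by
  by_contra hlt
  push Not at hlt
  obtain ⟨S', hS1, hS2⟩ := exists_between hlt
  have hS' : 0 < S' := hS0.trans_lt hS1
  have hclR : ∀ w ∈ closure U, R ≤ ‖w‖ := by
    intro w hw
    have : closure U ⊆ {w : ℂ | R ≤ ‖w‖} :=
      closure_minimal (fun w hw => (hUR w hw).le) (isClosed_le continuous_const continuous_norm)
    exact this hw
  have hclB : ∀ w ∈ closure U, ‖f w‖ ≤ max B S := by
    intro w hw
    rw [closure_eq_self_union_frontier] at hw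
    rcases hw with hw | hw
    · exact (hB w hw).trans (le_max_left _ _)
    · exact (hS w hw).trans (le_max_right _ _)
  have hBS : 0 ≤ max B S := hS0.trans (le_max_right _ _)
  have key : ∀ n : ℕ, ‖f z‖ ^ n ≤ ‖z‖ / R * S' ^ n := by
    intro n
    set ρ : ℝ := ‖z‖ + (max B S) ^ n * R / S' ^ n + 1 with hρ
    have hρz : ‖z‖ < ρ := by
      have : 0 ≤ (max B S) ^ n * R / S' ^ n := by positivity
      linarith
    have hρ0 : 0 < ρ := (norm_nonneg z).trans_lt hρz
    have hne : ∀ w ∈ closure U, w ≠ 0 := by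
      intro w hw h0
      have := hclR w hw
      rw [h0, norm_zero] at this
      linarith
    have hd : DiffContOnCl ℂ (fun w => f w ^ n / w) (U ∩ ball 0 ρ) := by
      refine ⟨?_, ?_⟩
      · refine ((hf.differentiableOn.mono inter_subset_left).pow n).div differentiableOn_id ?_
        intro w hw
        exact hne w (subset_closure hw.1)
      · have hsub : closure (U ∩ ball 0 ρ) ⊆ closure U := closure_mono inter_subset_left
        refine ((hf.continuousOn.mono hsub).pow n).div continuousOn_id ?_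
        intro w hw
        exact hne w (hsub hw)
    have hb : Bornology.IsBounded (U ∩ ball 0 ρ) := isBounded_ball.subset inter_subset_right
    have hfr : ∀ w ∈ frontier (U ∩ ball 0 ρ), ‖f w ^ n / w‖ ≤ S' ^ n / R := by
      intro w hw
      rcases frontier_inter_subset _ _ hw with ⟨h1, -⟩ | ⟨h1, h2⟩
      · have hwR := hclR w (frontier_subset_closure h1)
        rw [norm_div, norm_pow]
        have h3 : ‖f w‖ ≤ S' := (hS w h1).trans hS1.le
        gcongr
      · rw [frontier_ball _ hρ0.ne'] at h2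
        have h4 : ‖w‖ = ρ := by simpa using h2
        rw [norm_div, norm_pow, h4]
        have h3 : ‖f w‖ ^ n ≤ (max B S) ^ n := by
          gcongr
          exact hclB w h1
        rw [div_le_div_iff₀ hρ0 hR]
        calc ‖f w‖ ^ n * R ≤ (max B S) ^ n * R := by gcongr
          _ = S' ^ n * ((max B S) ^ n * R / S' ^ n) := by field_simp
          _ ≤ S' ^ n * ρ := by
            gcongr
            have := norm_nonneg z
            linarith
    have hzc : z ∈ closure (U ∩ ball 0 ρ) := subset_closure ⟨hz, by simpa using hρz⟩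
    have h5 := Complex.norm_le_of_forall_mem_frontier_norm_le hb hd hfr hzc
    have hz0 : 0 < ‖z‖ := hR.trans (hUR z hz)
    simp only [norm_div, norm_pow] at h5
    rw [div_le_iff₀ hz0] at h5
    calc ‖f z‖ ^ n ≤ S' ^ n / R * ‖z‖ := h5
      _ = _ := by ring
  have h1 : 1 < ‖f z‖ / S' := (one_lt_div hS').2 hS2
  obtain ⟨n, hn⟩ := pow_unbounded_of_one_lt (‖z‖ / R) h1
  have h2 := key n
  rw [div_pow, lt_div_iff₀ (by positivity)] at hn
  linarith

/-- the lemma of Schwarz for a zero of order `m` -/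
theorem schwarz {f : ℂ → ℂ} {z₀ : ℂ} {δ B : ℝ} (hδ : 0 < δ) (hf : DifferentiableOn ℂ f (ball z₀ δ))
    (hB : ∀ z ∈ ball z₀ δ, ‖f z‖ ≤ B) {m : ℕ} (hm : ∀ k < m, iteratedDeriv k f z₀ = 0) {z : ℂ}
    (hz : z ∈ ball z₀ (δ / 4)) : ‖f z‖ ≤ B / 2 ^ m := by
  have han : AnalyticAt ℂ f z₀ :=
    hf.analyticAt (isOpen_ball.mem_nhds (mem_ball_self hδ))
  have hord := (natCast_le_analyticOrderAt_iff_iteratedDeriv_eq_zero han).2 hm
  obtain ⟨g, hg, hgf⟩ := (natCast_le_analyticOrderAt han).1 hord
  -- the quotient, extended over the centre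
  set q : ℂ → ℂ := fun w => if w = z₀ then g z₀ else f w / (w - z₀) ^ m with hq
  have hqn : q =ᶠ[𝓝 z₀] g := by
    filter_upwards [hgf] with w hw
    by_cases h : w = z₀
    · simp [hq, h]
    · have : (w - z₀) ^ m ≠ 0 := pow_ne_zero _ (sub_ne_zero.2 h)
      simp only [hq, h, if_false, hw, smul_eq_mul]
      field_simp
  have hqd : DifferentiableOn ℂ q (ball z₀ δ) := by
    intro w hw
    by_cases h : w = z₀
    · rw [h]
      exact (hg.differentiableAt.congr_of_eventuallyEq hqn).differentiableWithinAt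
    · have h1 : q =ᶠ[𝓝 w] fun w => f w / (w - z₀) ^ m := by
        filter_upwards [isOpen_ne.mem_nhds h] with w' hw'
        have : w' ≠ z₀ := hw'
        simp [hq, this]
      have h2 : DifferentiableAt ℂ f w := hf.differentiableAt (isOpen_ball.mem_nhds hw)
      refine (DifferentiableAt.congr_of_eventuallyEq ?_ h1).differentiableWithinAt
      exact h2.div (by fun_prop) (pow_ne_zero _ (sub_ne_zero.2 h))
  have hfq : ∀ w, w ≠ z₀ → f w = (w - z₀) ^ m * q w := by
    intro w h
    have : (w - z₀) ^ m ≠ 0 := pow_ne_zero _ (sub_ne_zero.2 h)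
    simp only [hq, h, if_false]
    field_simp
  have hB0 : 0 ≤ B := (norm_nonneg _).trans (hB z₀ (mem_ball_self hδ))
  have hδ2 : (0 : ℝ) < δ / 2 := by linarith
  have hsub : closedBall z₀ (δ / 2) ⊆ ball z₀ δ := closedBall_subset_ball (by linarith)
  have hd : DiffContOnCl ℂ q (ball z₀ (δ / 2)) := by
    refine ⟨hqd.mono (ball_subset_closedBall.trans hsub), ?_⟩
    rw [closure_ball _ hδ2.ne']
    exact (hqd.mono hsub).continuousOn
  have hqs : ∀ w ∈ frontier (ball z₀ (δ / 2)), ‖q w‖ ≤ B / (δ / 2) ^ m := by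
    intro w hw
    rw [frontier_ball _ hδ2.ne'] at hw
    have h4 : ‖w - z₀‖ = δ / 2 := by simpa [dist_eq_norm] using hw
    have hne : w ≠ z₀ := by
      intro h
      rw [h, sub_self, norm_zero] at h4
      linarith
    have h5 : ‖f w‖ ≤ B := hB w (hsub (sphere_subset_closedBall hw))
    rw [hfq w hne, norm_mul, norm_pow, h4] at h5
    rw [le_div_iff₀ (by positivity)]
    linarith
  have hz2 : z ∈ ball z₀ (δ / 2) := ball_subset_ball (by linarith) hz
  have h6 := Complex.norm_le_of_forall_mem_frontier_norm_le isBounded_ball hd hqs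
    (subset_closure hz2)
  by_cases h : z = z₀
  · rcases Nat.eq_zero_or_pos m with h0 | h0
    · rw [h0]
      simpa using hB z (ball_subset_ball (by linarith) hz)
    · have := hm 0 h0
      rw [iteratedDeriv_zero] at this
      rw [h, this, norm_zero]
      positivity
  · rw [hfq z h, norm_mul, norm_pow]
    have h7 : ‖z - z₀‖ ≤ δ / 4 := by
      have := mem_ball.1 hz
      rw [dist_eq_norm] at this
      exact this.le
    calc ‖z - z₀‖ ^ m * ‖q z‖ ≤ (δ / 4) ^ m * (B / (δ / 2) ^ m) := by gcongr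
      _ = B / 2 ^ m := by
        have : δ ≠ 0 := hδ.ne'
        rw [show δ / 4 = δ / 2 * 2⁻¹ by ring, mul_pow, inv_pow]
        field_simp

end Pool.Agent.TOR
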